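import Pool.Agent.K4H81.VT.Pot

/-!
# Vertex-transitive graphs attaining the Moore bound up to a constant

Let `G` be a `d`-regular graph with no cycle of length at most `2k`, on at most `C d^k` vertices,
and let a group act on it by automorphisms, transitively on the vertices. Then some block of
imprimitivity of bounded index spans a regular graph of degree at least a constant times `d` which
is an edge expander with expansion depending on `k` and `C` only.
-/

set_option autoImplicit false

open Finset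
open scoped Pointwise

namespace Pool.Agent.Results.MP_97687e_co.ExpanderBlocks

open Pool.Agent.K4H81.VT

theorem result {V : Type*} [Fintype V] [DecidableEq V] [Nonempty V]
    (G : SimpleGraph V) [DecidableRel G.Adj]
    (A : Type*) [Group A] [MulAction A V] [MulAction.IsPretransitive A V]
    (hA : ∀ (g : A) (x y : V), G.Adj (g • x) (g • y) ↔ G.Adj x y)
    (k : ℕ) (hk : 1 ≤ k)
    (hg : ∀ (v : V) (p : G.Walk v v), p.IsCycle → 2 * k < p.length)
    (d : ℕ) (hd : G.IsRegularOfDegree d)
    (C : ℝ) (hV : (Fintype.card V : ℝ) ≤ C * (d : ℝ) ^ k) :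
    ∃ (B : Finset V) (D : ℕ),
      -- `B` is a nonempty block, and the group elements fixing `B` are transitive on `B`
      MulAction.IsBlock A (B : Set V) ∧ B.Nonempty ∧
      (∀ x ∈ B, ∀ y ∈ B, ∃ g : A, g • B = B ∧ g • x = y) ∧
      -- its index is bounded
      (Fintype.card V : ℝ) ≤ 4 ^ k * C ^ 2 * B.card ∧
      -- the graph on `B` is regular of degree `D`, at least a constant times `d`
      (∀ x ∈ B, (B.filter (G.Adj x)).card = D) ∧
      (d : ℝ) ^ k ≤ 2 ^ k * C * (D : ℝ) ^ k ∧
      -- it attains the Moore bound with the same constant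
      (B.card : ℝ) ≤ C * (D : ℝ) ^ k ∧
      -- it is an expander
      ∀ F ⊆ B, 2 * F.card ≤ B.card →
        (D : ℝ) * F.card ≤
          64 * k * 6 ^ ⌈4 ^ k * C⌉₊ * ∑ x ∈ F, (((B \ F).filter (G.Adj x)).card : ℝ) := by
  classical
  have hkr : (0 : ℝ) < k := by exact_mod_cast hk
  have hK : (0 : ℝ) < 64 * k * 6 ^ ⌈4 ^ k * C⌉₊ := by positivity
  obtain ⟨B, D, hB, hne, _, hdeg, hBC, hdD, hVB, hexp⟩ := main hA hk hg
    (J := ⌈4 ^ k * C⌉₊) (Nat.le_ceil _) (ε := 1 / (64 * k * 6 ^ ⌈4 ^ k * C⌉₊)) (by positivity)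
    (by rw [mul_one_div, div_self hK.ne']) (d := d) (by
      intro x
      have := hd x
      rw [← this, ← G.card_neighborFinset_eq_degree, G.neighborFinset_eq_filter]) hV
  refine ⟨B, D, ?_, hne, ?_, hVB, hdeg, hdD, hBC, ?_⟩
  · rw [MulAction.isBlock_iff_smul_eq_of_nonempty]
    intro g hgB
    obtain ⟨y, hy, hy'⟩ := hgB
    obtain ⟨x, hx, rfl⟩ := hy
    have := hB g ⟨x, by exact_mod_cast hx, by exact_mod_cast hy'⟩
    rw [← coe_smul_finset, this]
  · intro x hx y hy
    obtain ⟨g, hgx⟩ := MulAction.exists_smul_eq A x y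
    exact ⟨g, hB g ⟨x, hx, by rw [hgx]; exact hy⟩, hgx⟩
  · intro F hF hhalf
    have := hexp F hF hhalf
    push_cast at this
    rw [one_div, mul_assoc, inv_mul_le_iff₀ hK] at this
    exact this

end Pool.Agent.Results.MP_97687e_co.ExpanderBlocks
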