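import Pool.Agent.K4H81.GU.Tur

set_option autoImplicit false

/-!
# A lower bound for the girth problem: a new tower of `U(4)` graphs

`γ(n, 2m) ≥ n ^ (1 + 3 / (4m + 2 - ⌊m/4⌋)) / 256` for all `m ≥ 1` and `n ≥ 2`.

For `q = 2 ^ f` and `m ≥ 1` we construct `(q³ - q)`-regular bipartite graphs of girth at least
`2m + 2` with at most `2 (q² + 1) q ^ (4m - ⌊m/4⌋)` vertices (`Pool.Agent.K4H81.GU.coreU`). Let `K`
be the field with `q⁴` elements, `σ` the Frobenius over the field with `q` elements, `a ≠ 1`,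
`a ^ (q + 1) = 1`, `b = 1 / a`. The letters are the elements
`T_e = e₀e₃/(e₁e₂) + e₀² τ + b² e₀e₁/(e₂e₃) τ²`, `e_i = σ^i(e)`, of the cyclic algebra `K(x){τ}`,
`τ⁴ = x`, where `e ≠ 0` satisfies `e₀e₁e₂e₃ = b (e₀e₁ + e₂e₃) + a (e₁e₂ + e₃e₀)`; there are at least
`q³ - q` of them. They have the reduced norm `1 + (a⁴ + b⁴) x + x²` and a common value
`T* J T = Θ` of the hermitian form `J = b τ + a τ⁻¹`, and at the root `a⁴` of the reduced norm a
product of `T_e adj(T_f)` for a reduced word is never zero, because `M(e, f)² ≠ N(e) N(f)` for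
different letters. So for a reduced word `w` of length `l`, the numerator of `det (1 - w)` is a
nonzero self-reciprocal polynomial of degree at most `2 l`; it is divisible by `x ^ (m + 1)` if
`w = 1` modulo `τ ^ (m + 1)`. The graphs belong to the group generated modulo `τ ^ (m + 1)`; its
order is small because all leading coefficients `y` satisfy `y σ²(y) = 1`.
-/

namespace Pool.Agent.Results.MP_97687e_co.GeometricTower

/-- `γ(n, k)`: the largest number of edges of a graph on `n` vertices of girth greater than `k`. -/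
noncomputable def gam (n k : ℕ) : ℕ :=
  sSup {m | ∃ G : SimpleGraph (Fin n), (k : ℕ∞) < G.egirth ∧ G.edgeSet.ncard = m}

theorem le_gam {n k : ℕ} (G : SimpleGraph (Fin n)) (h : (k : ℕ∞) < G.egirth) :
    G.edgeSet.ncard ≤ gam n k := by
  apply le_csSup
  · refine ⟨Nat.card (Sym2 (Fin n)), ?_⟩
    rintro m ⟨G, -, rfl⟩
    rw [← Nat.card_coe_set_eq]
    exact Nat.card_le_card_of_injective (Subtype.val) Subtype.val_injective
  · exact ⟨G, h, rfl⟩

/-- For all `m ≥ 1` and `n ≥ 2`: `n ^ (1 + 3 / (4m + 2 - ⌊m/4⌋)) ≤ 256 γ(n, 2m)`. -/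
theorem result : ∀ m n : ℕ, 1 ≤ m → 2 ≤ n →
    (n : ℝ) ^ (1 + 3 / ((4 * m + 2 - m / 4 : ℕ) : ℝ)) ≤ 256 * (gam n (2 * m) : ℝ) := by
  intro m n hm hn
  obtain ⟨G, hG, -, hE⟩ := Pool.Agent.K4H81.GU.allU m hm n hn
  refine hE.trans ?_
  have := le_gam G hG
  gcongr

end Pool.Agent.Results.MP_97687e_co.GeometricTower
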