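import Pool.Agent.K4H82.ST.Fin4

/-!
# The structure of all graphs of girth greater than `2 k` with about `n ^ (1 + 1 / k)` edges

(1) For all `k` and `η > 0`: from EVERY graph `G` on `n` vertices without cycles of length at most
`2 k` one can delete at most `η n ^ (1 + 1 / k)` edges such that the rest `G'` consists of isolated
vertices and of at most `M(k, η)` components which are mixing in bounded time: all degrees in them
have the order `n ^ (1 / k)`, and for every length `l ≥ M` two vertices `x`, `y` of the same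
component are joined by walks of length `l`, and by paths of length `l` (cycles through `x` if
`x = y`), whose numbers have the order `n ^ (l / k - 1)`, the average number, unless there is none
because the component is bipartite and the parity is wrong. If `G` has few cycles of a single odd
length `l ≥ M` then `G'` is bipartite. Moreover for every `δ > 0` the vertices have a partition into
`T(k, η, δ)` parts such that the matrix `B` of the averages of the adjacency matrix `A` of `G'` over
the pairs of parts satisfies `‖A - B‖ ≤ δ n ^ (1 / k)` in operator norm and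
`|tr A ^ l - tr B ^ l| ≤ δ n ^ (l / k)` for all lengths `2 k < l ≤ 1 / δ`.

(2) So the girth conjecture for the parameter `k` is equivalent to the existence, for all large
`n`, of such mixing graphs of girth greater than `2 k` which are bipartite and connected (apart
from isolated vertices).

Proof. (1) Remove the vertices of large degree. Take on the vertices of the bipartite double cover
an equivalence relation, invariant under the swap of the sheets, which minimises the number of cut
edges plus a multiple of the entropy of the classes. Its large classes expand and the small ones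
have few edges by the Moore bound. Follow the sets of the vertices which are ends of many walks of
length `m` from a given vertex: the union of the sets for `m` and `m + 1` grows by a fixed
proportion in every step until it contains almost the whole class; two such sets meet. Walks of
length `l` which are not paths are rare since in girth greater than `2 k` the number of walks of
length `m` between two vertices is `O(D ^ max(m / 2, m - k))`. The partition comes from the large
eigenvalues: closed walks of length `2 k` backtrack, so there are boundedly many and the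
eigenvectors are flat.
-/

set_option autoImplicit false

open Finset Classical

namespace Pool.Agent.Results.MP_97687e_co.StructureOfDenseGraphs

open Pool.Agent.K4H82.ST Pool.Agent.K4H81.SP

theorem result (k : ℕ) (hk : 1 ≤ k) :
    (∀ η : ℝ, 0 < η → ∃ (M : ℝ) (c : ℕ → ℝ) (T : ℝ → ℕ), 0 < M ∧ (∀ l, 0 < c l) ∧
      ∀ (n : ℕ) (G : SimpleGraph (Fin n)), M ≤ n → ((2 * k : ℕ) : ℕ∞) < G.egirth →
      ∃ G' ≤ G,
        (G.edgeSet.ncard : ℝ) ≤ (G'.edgeSet.ncard : ℝ) + η * (n : ℝ) ^ (1 + 1 / (k : ℝ)) ∧
        Mixing k M c G' ∧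
        (∀ l : ℕ, M ≤ l → Odd l → 1 / c l ≤ n →
          ((∑ v, {p : G.Walk v v | p.IsCycle ∧ p.length = l}.ncard : ℕ) : ℝ) <
            c l / M * (n : ℝ) ^ ((l : ℝ) / k) → G'.Colorable 2) ∧
        ∀ δ : ℝ, 0 < δ → ∃ p : Fin n → Fin (T δ),
          (∀ f g : Fin n → ℝ,
            |∑ x, ∑ y, (G'.adjMatrix ℝ x y - blk p (G'.adjMatrix ℝ) x y) * (f x * g y)| ≤
              δ * (n : ℝ) ^ (1 / (k : ℝ)) * (√(∑ x, f x ^ 2) * √(∑ x, g x ^ 2))) ∧
          ∀ l : ℕ, 2 * k < l → (l : ℝ) ≤ 1 / δ →
            |(G'.adjMatrix ℝ ^ l).trace - (blk p (G'.adjMatrix ℝ) ^ l).trace| ≤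
              δ * (n : ℝ) ^ ((l : ℝ) / k)) ∧
    ((∃ c : ℝ, 0 < c ∧ ∃ N : ℕ, ∀ n ≥ N, ∃ G : SimpleGraph (Fin n),
        ((2 * k : ℕ) : ℕ∞) < G.egirth ∧
        c * (n : ℝ) ^ (1 + 1 / (k : ℝ)) ≤ (G.edgeSet.ncard : ℝ)) ↔
      ∃ (M : ℝ) (c : ℕ → ℝ), 0 < M ∧ (∀ l, 0 < c l) ∧ ∀ n : ℕ, M ≤ n →
        ∃ G : SimpleGraph (Fin n), ((2 * k : ℕ) : ℕ∞) < G.egirth ∧
          G.Colorable 2 ∧ (∃ x y, G.Adj x y) ∧
          (∀ x x' y y', G.Adj x x' → G.Adj y y' → G.Reachable x y) ∧ Mixing k M c G) := by
  refine ⟨?_, ?_⟩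
  · intro η hη
    obtain ⟨M, c, hM, hc, hcore⟩ := core hk (min η 1) (lt_min hη one_pos) (min_le_right _ _)
    have hM1 : 1 ≤ M + 1 := by linarith
    have hM0 : 0 < M + 1 := by linarith
    have hT : ∀ δ : ℝ, ∃ T : ℕ, 0 < δ → ∀ (n : ℕ) (G : SimpleGraph (Fin n)), 1 ≤ n →
        (∀ (v : Fin n) (p : G.Walk v v), p.IsCycle → 2 * k < p.length) →
        (∀ x y, G.Adj x y → ((G.neighborSet x).ncard : ℝ) ≤ (M + 1) * (n : ℝ) ^ (1 / (k : ℝ))) →
        ∃ p : Fin n → Fin T,
          (∀ f g : Fin n → ℝ,
            |∑ x, ∑ y, (G.adjMatrix ℝ x y - blk p (G.adjMatrix ℝ) x y) * (f x * g y)| ≤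
            δ * (n : ℝ) ^ (1 / (k : ℝ)) * (√(∑ x, f x ^ 2) * √(∑ x, g x ^ 2))) ∧
          ∀ l : ℕ, 2 * k < l → (l : ℝ) ≤ 1 / δ →
            |(G.adjMatrix ℝ ^ l).trace - (blk p (G.adjMatrix ℝ) ^ l).trace| ≤
              δ * (n : ℝ) ^ ((l : ℝ) / k) := by
      intro δ
      by_cases hδ : 0 < δ
      · obtain ⟨T, hT⟩ := reg_apply hk hM1 hδ
        exact ⟨T, fun _ => hT⟩
      · exact ⟨0, fun h => absurd h hδ⟩
    choose T hT using hT
    refine ⟨M + 1, c, T, hM0, hc, ?_⟩
    intro n G hn hg
    rw [Pool.TH815.GR.egirth_iff] at hg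
    have hnM : M ≤ n := by linarith
    have hnpos : (0 : ℝ) < n := by linarith
    have hn0 : 0 < n := by exact_mod_cast hnpos
    obtain ⟨G₁, R, P₀, hP₀, hG₁, hloss, hall⟩ := hcore n G hnM hg
    obtain ⟨hmix, -⟩ := hall P₀ hP₀ (fun _ h => h)
    have hle : R.gr G₁ P₀ hP₀ ≤ G := (R.gr_le G₁ P₀ hP₀).trans hG₁
    have hmix' := hmix.mono hM (by linarith : M ≤ M + 1)
    refine ⟨R.gr G₁ P₀ hP₀, hle, ?_, hmix', ?_, ?_⟩
    · refine hloss.trans ?_
      have hpow : 0 ≤ (n : ℝ) ^ (1 + 1 / (k : ℝ)) := by positivity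
      have := mul_le_mul_of_nonneg_right (min_le_left η 1) hpow
      linarith
    · intro l hl hodd hcn hfew
      refine hmix'.bip hk hM0 hc hn0 l hl hodd hcn (lt_of_le_of_lt ?_ hfew)
      exact Nat.cast_le.2 (sum_le_sum fun v _ => cyc_mono hle l v)
    · intro δ hδ
      exact hT δ hδ n _ hn0 (no_cycle_mono hle hg) (fun x y hxy => (hmix'.1 x y hxy).2.1)
  · simp only [Pool.TH815.GR.egirth_iff]
    exact girth_iff hk

end Pool.Agent.Results.MP_97687e_co.StructureOfDenseGraphs
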