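import Pool.Agent.K4H93.NB.Asym
import Pool.Agent.K4H93.NB.Affine
import Pool.Agent.H607R2.BW.GIR

/-!
# Graphs of large girth whose neighbourhoods are closed under operations which are not affine

The vertices are `m`-bit strings, in any labelling, and a positive proportion of all strings is used.
Let every neighbourhood be a union of at most `L` sets each of which is closed under some
coordinatewise operation on bits of any arity; there may be different operations in different
coordinates and for different sets. The operation is idempotent in every coordinate, and in at most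
`θ m` of the coordinates it is affine over the field with two elements (for instance a projection, or
`x + y + z`). In the other coordinates it is arbitrary: conjunction, disjunction, majority, or any other
one. If the girth is greater than four, the graph has at most `L n ^ (1 + θ + o(1))` edges. So the
graphs of girth greater than `2 k` with `c n ^ (1 + 1 / k)` edges which the girth conjecture asks for
need `L ≥ n ^ (1 / k - θ - o(1))`: in a union of `n ^ o(1)` closed sets the operations are affine in a
proportion of at least `1 / k` of the coordinates. For `θ = 0` this contains the result on unions of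
median-closed sets (formulas in 2-CNF), and unions of sets closed under conjunctions (Horn formulas) or
under different operations of this kind in different coordinates.

Affine operations are different: for `k = 2` and for `k = 3` there are graphs of girth greater than
`2 k` with `(n / 2) ^ (1 + 1 / k)` edges on all the strings of length `k a + 1` in which all
neighbourhoods are closed under `x + y + z`.

Proof. A set closed under an operation that is nowhere affine is, by Post's theorem in several
coordinates, after flipping some coordinates closed under an operation which is the conjunction in some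
coordinates and the majority in the other ones. Such a set `S` satisfies
`|S| ≤ 2 N ^ 2 (1 + |S'|)`, where `S'` is the set of the members of `S` which have `r` members of
`S` at distance at most `K`, and `N` is the number of sets of at most `(r - 1) (m / (K + 1) + 1)`
coordinates. As `r` vertices have few common neighbours, the sum of the `|S'|` is at most
`n ^ (1 + o(1))`.
-/

set_option autoImplicit false

namespace Pool.Agent.Results.MP_97687e_co.TameNeighbourhoods

open Pool.Agent.K4H93.NB

theorem result :
    -- (1) the bound
    (∀ (D : ℕ) (θ ε : ℝ), 0 ≤ θ → 0 < ε →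
      ∃ n₀ : ℕ, ∀ (n m L a : ℕ) (lab : Fin n → Fin m → Bool) (G : SimpleGraph (Fin n)), n₀ ≤ n →
        Function.Injective lab → 2 ^ m ≤ D * n → (a : ℝ) ≤ θ * m →
        (∀ x, TameUnion L a (lab '' G.neighborSet x)) → 4 < G.egirth →
        (Nat.card G.edgeSet : ℝ) ≤ L * (n : ℝ) ^ (1 + θ + ε)) ∧
    -- (2) the graphs of the girth conjecture
    (∀ (k D : ℕ) (c δ θ : ℝ), 2 ≤ k → 0 < c → 0 ≤ θ → δ + θ < 1 / k →
      ∃ n₀ : ℕ, ∀ (n m L a : ℕ) (lab : Fin n → Fin m → Bool) (G : SimpleGraph (Fin n)), n₀ ≤ n →
        Function.Injective lab → 2 ^ m ≤ D * n → (a : ℝ) ≤ θ * m →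
        (∀ x, TameUnion L a (lab '' G.neighborSet x)) →
        ((2 * k : ℕ) : ℕ∞) < G.egirth →
        c * (n : ℝ) ^ (1 + 1 / (k : ℝ)) ≤ Nat.card G.edgeSet → (n : ℝ) ^ δ < L) ∧
    -- (3) affine neighbourhoods
    (∀ k a : ℕ, k = 2 ∨ k = 3 → 1 ≤ a →
      ∃ G : SimpleGraph (Fin (k * a + 1) → Bool), ((2 * k : ℕ) : ℕ∞) < G.egirth ∧
        Nat.card G.edgeSet = 2 ^ ((k + 1) * a) ∧
        ∀ x, ∀ u ∈ G.neighborSet x, ∀ v ∈ G.neighborSet x, ∀ w ∈ G.neighborSet x,
          (fun i => xor (u i) (xor (v i) (w i))) ∈ G.neighborSet x) := by
  refine ⟨?_, ?_, ?_⟩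
  · intro D θ ε hθ hε
    obtain ⟨n₀, hn₀⟩ := graph_asym 2 2 D θ ε (by norm_num) hθ hε
    exact ⟨n₀, fun n m L a lab G hn hlab hD ha hN hg =>
      hn₀ n m L a lab G hn hlab hD ha hN (Pool.Agent.H607R2.BW.t_GIR (Fin n) G hg)⟩
  · intro k D c δ θ hk hc hθ hδ
    obtain ⟨n₀, hn₀⟩ := graph_large 2 2 D c δ θ (1 / (k : ℝ)) (by norm_num) hc hθ hδ
    refine ⟨n₀, fun n m L a lab G hn hlab hD ha hN hg hE =>
      hn₀ n m L a lab G hn hlab hD ha hN ?_ hE⟩
    apply Pool.Agent.H607R2.BW.t_GIR
    refine lt_of_le_of_lt ?_ hg
    have : 4 ≤ 2 * k := by omega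
    exact_mod_cast this
  · rintro k a (rfl | rfl) ha
    · obtain ⟨G, h1, h2, h3, _⟩ := Wen.exists_affine 1 a ha
      exact ⟨G, h3 (by norm_num), h1, h2⟩
    · obtain ⟨G, h1, h2, _, h4⟩ := Wen.exists_affine 2 a ha
      exact ⟨G, h4 (by norm_num), h1, h2⟩

end Pool.Agent.Results.MP_97687e_co.TameNeighbourhoods
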